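import Pool.Agent.Y226.FK.Est
import Pool.Agent.Helper993.LogTrace

set_option autoImplicit false

/-!
# The chains of congruence subgroups
-/

open scoped Topology Matrix

namespace Pool.Agent.Y226.FK

open Filter Pool.Agent.Helper993.HeisDet Pool.Agent.Helper993.LT

/-- A sequence of levels. -/
structure Sq where
  k : ℕ → ℕ
  zero : k 0 = 1
  pos : ∀ i, 0 < k i
  odd : ∀ i, Odd (k i)
  dvd : ∀ i, k i ∣ k (i + 1)
  mono : StrictMono k

instance (s : Sq) (i : ℕ) : NeZero (s.k i) := ⟨(s.pos i).ne'⟩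

theorem Sq.dvd_of_le (s : Sq) {i j : ℕ} (h : i ≤ j) : s.k i ∣ s.k j := by
  induction j, h using Nat.le_induction with
  | base => exact dvd_rfl
  | succ j _ ih => exact ih.trans (s.dvd j)

/-- The congruence subgroups of the integral Heisenberg group. -/
def ch (s : Sq) (i : ℕ) : Subgroup (Heis ℤ) := cong (s.k i) (s.k i) (s.k i) dvd_rfl

instance ch_normal (s : Sq) (i : ℕ) : (ch s i).Normal := cong_normal dvd_rfl dvd_rfl

theorem ch_zero (s : Sq) : ch s 0 = ⊤ := by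
  rw [eq_top_iff]
  intro g _
  exact mem_cong.mpr ⟨by simp [s.zero], by simp [s.zero], by simp [s.zero]⟩

theorem ch_anti (s : Sq) : Antitone (ch s) := by
  intro i j hij g hg
  obtain ⟨h1, h2, h3⟩ := mem_cong.mp hg
  have e1 : ((s.k i : ℕ) : ℤ) ∣ ((s.k j : ℕ) : ℤ) :=
    Int.natCast_dvd_natCast.mpr (s.dvd_of_le hij)
  exact mem_cong.mpr ⟨e1.trans h1, e1.trans h2, e1.trans h3⟩

theorem ch_card (s : Sq) (i : ℕ) : Nat.card (Heis ℤ ⧸ ch s i) = s.k i * (s.k i * s.k i) :=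
  card_quot dvd_rfl dvd_rfl

instance ch_finite (s : Sq) (i : ℕ) : Finite (Heis ℤ ⧸ ch s i) := by
  apply Nat.finite_of_card_ne_zero
  rw [ch_card]
  have := s.pos i
  positivity

theorem ch_index (s : Sq) (i : ℕ) : (ch s i).index = s.k i * (s.k i * s.k i) := by
  rw [Subgroup.index_eq_card, ch_card]

theorem ch_strictAnti (s : Sq) : StrictAnti (ch s) := by
  refine strictAnti_nat_of_succ_lt fun i => ?_
  refine lt_of_le_of_ne (ch_anti s (Nat.le_succ i)) ?_
  intro h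
  have h1 := ch_index s i
  have h2 := ch_index s (i + 1)
  rw [h, h1] at h2
  have h3 := s.mono (Nat.lt_succ_self i)
  have h4 : s.k i * (s.k i * s.k i) < s.k (i + 1) * (s.k (i + 1) * s.k (i + 1)) :=
    Nat.mul_lt_mul'' h3 (Nat.mul_lt_mul'' h3 h3)
  simp only [Nat.succ_eq_add_one] at h3 h4
  omega

theorem eq_zero_of_dvd (s : Sq) {x : ℤ} (h : ∀ i : ℕ, ((s.k i : ℕ) : ℤ) ∣ x) : x = 0 := by
  by_contra hx
  have h1 := h (x.natAbs + 1)
  have h2 := Int.natAbs_dvd_natAbs.mpr h1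
  have h3 := Nat.le_of_dvd (Int.natAbs_pos.mpr hx) h2
  have h4 : x.natAbs + 1 ≤ s.k (x.natAbs + 1) := s.mono.le_apply
  simp only [Int.natAbs_natCast] at h3
  omega

theorem ch_inf (s : Sq) : ⨅ i, ch s i = ⊥ := by
  rw [eq_bot_iff]
  intro g hg
  rw [Subgroup.mem_iInf] at hg
  have h1 : ∀ i : ℕ, ((s.k i : ℕ) : ℤ) ∣ g.a := fun i => (mem_cong.mp (hg i)).1
  have h2 : ∀ i : ℕ, ((s.k i : ℕ) : ℤ) ∣ g.b := fun i => (mem_cong.mp (hg i)).2.1
  have h3 : ∀ i : ℕ, ((s.k i : ℕ) : ℤ) ∣ g.c := fun i => (mem_cong.mp (hg i)).2.2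
  rw [Subgroup.mem_bot]
  ext
  · exact eq_zero_of_dvd s h1
  · exact eq_zero_of_dvd s h2
  · exact eq_zero_of_dvd s h3

theorem det_ch (s : Sq) (N : ℕ) (i : ℕ) [Fintype (Heis ℤ ⧸ ch s i)]
    [DecidableEq (Heis ℤ ⧸ ch s i)] :
    (gmat (MonoidAlgebra.mapDomain (QuotientGroup.mk' (ch s i)) (elt ℂ (N : ℂ)))).det
      = D (s.k i) (s.k i) (s.k i) (N : ℂ) :=
  det_gmat' (ch s i) dvd_rfl dvd_rfl rfl (s.odd i) _

/-- the pull back of the chain to a group isomorphic to the integer Heisenberg group -/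
def pull {Γ : Type} [Group Γ] (φ : Γ ≃* Heis ℤ) (s : Sq) : NormalChain Γ where
  sub k := (ch s k).comap φ.toMonoidHom
  normal k := inferInstance
  finiteIndex k := by
    have h : (ch s k).FiniteIndex := Subgroup.finiteIndex_of_finite_quotient
    constructor
    rw [Subgroup.index_comap_of_surjective _ (f := φ.toMonoidHom) φ.surjective]
    exact h.index_ne_zero
  zero := by rw [ch_zero, Subgroup.comap_top]
  strictAnti := by
    intro i j hij
    exact (Subgroup.comap_lt_comap_of_surjective (f := φ.toMonoidHom) φ.surjective).mpr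
      (ch_strictAnti s hij)
  iInf_eq_bot := by
    rw [← Subgroup.comap_iInf, ch_inf, MonoidHom.comap_bot]
    exact (MonoidHom.ker_eq_bot_iff _).mpr φ.injective

/-- the isomorphism of the quotients -/
noncomputable def quotE {Γ : Type} [Group Γ] (φ : Γ ≃* Heis ℤ) (s : Sq) (k : ℕ) :
    Γ ⧸ (pull φ s).sub k ≃* Heis ℤ ⧸ ch s k :=
  QuotientGroup.congr _ _ φ
    (Subgroup.map_comap_eq_self_of_surjective (f := φ.toMonoidHom) φ.surjective (ch s k))

/-- the group ring element `1 + N t - N u t` -/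
noncomputable def pullN {Γ : Type} [Group Γ] (φ : Γ ≃* Heis ℤ) (N : ℕ) : MonoidAlgebra ℤ Γ :=
  MonoidAlgebra.mapDomain φ.symm (elt ℤ (N : ℤ))

theorem mapDomain_quotE {Γ : Type} [Group Γ] (φ : Γ ≃* Heis ℤ) (s : Sq) (N : ℕ) (k : ℕ) :
    MonoidAlgebra.mapDomain (quotE φ s k)
      (MonoidAlgebra.mapDomain (QuotientGroup.mk' ((pull φ s).sub k)) (pullN φ N))
      = MonoidAlgebra.mapDomain (QuotientGroup.mk' (ch s k)) (elt ℤ (N : ℤ)) := by
  simp only [pullN, MonoidAlgebra.mapDomain, MonoidAlgebra.coeff_ofCoeff,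
    ← Finsupp.mapDomain_comp]
  congr 2
  funext x
  simp only [Function.comp_apply]
  change (QuotientGroup.mk (φ (φ.symm x)) : Heis ℤ ⧸ ch s k) = QuotientGroup.mk x
  rw [MulEquiv.apply_symm_apply]

theorem coeff_quotE {Γ : Type} [Group Γ] (φ : Γ ≃* Heis ℤ) (s : Sq) (N : ℕ) (k : ℕ)
    (x : Γ ⧸ (pull φ s).sub k) :
    (((MonoidAlgebra.mapDomain (QuotientGroup.mk' ((pull φ s).sub k)) (pullN φ N)).coeff x : ℤ) : ℂ)
      = (MonoidAlgebra.mapDomain (QuotientGroup.mk' (ch s k)) (elt ℂ (N : ℂ))).coeff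
        (quotE φ s k x) := by
  rw [← coeff_mapDomain_equiv (quotE φ s k), mapDomain_quotE, elt_coeff, elt_coeff]
  split_ifs <;> push_cast <;> simp

theorem normalised_pull {Γ : Type} [Group Γ] (φ : Γ ≃* Heis ℤ) (s : Sq) {N : ℕ} (hN : 2 ≤ N)
    (k : ℕ) :
    normalised (pull φ s)
      (Matrix.of fun _ _ => pullN φ N : Matrix (Fin 1) (Fin 1) (MonoidAlgebra ℤ Γ)) k
      = 2 * (Real.log ‖D (s.k k) (s.k k) (s.k k) (N : ℂ)‖ / ((s.k k : ℕ) : ℝ) ^ 3) := by
  have hne : D (s.k k) (s.k k) (s.k k) (N : ℂ) ≠ 0 := by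
    intro h
    have := D_norm_ge_one (n := s.k k) (k := s.k k) (s.odd k) hN
    rw [h, norm_zero] at this
    linarith
  have h1 : traceLog (image (pull φ s)
      (Matrix.of fun _ _ => pullN φ N : Matrix (Fin 1) (Fin 1) (MonoidAlgebra ℤ Γ)) k)
      = 2 * Real.log ‖D (s.k k) (s.k k) (s.k k) (N : ℂ)‖ := by
    have himg : image (pull φ s)
        (Matrix.of fun _ _ => pullN φ N : Matrix (Fin 1) (Fin 1) (MonoidAlgebra ℤ Γ)) k
        = Matrix.of fun _ _ =>
          MonoidAlgebra.mapDomain (QuotientGroup.mk' ((pull φ s).sub k)) (pullN φ N) := rfl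
    rw [himg]
    refine traceLog_eq _ _ ?_ hne
    intro i1 i2
    classical
    have : Fintype (Heis ℤ ⧸ ch s k) := Fintype.ofFinite _
    have h3 := det_opMatrix (quotE φ s k) _ _ (coeff_quotE φ s N k)
    rw [h3]
    exact det_ch s N k
  have h2 : (((pull φ s).sub k).index : ℝ) = ((s.k k : ℕ) : ℝ) ^ 3 := by
    have h3 : ((pull φ s).sub k).index = (ch s k).index :=
      Subgroup.index_comap_of_surjective _ (f := φ.toMonoidHom) φ.surjective
    rw [h3, ch_index]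
    push_cast
    ring
  unfold normalised
  rw [h1, h2]
  ring

/-- Every number in `(0, 2 log N]` is the limit along some chain. -/
theorem exists_chain {Γ : Type} [Group Γ] (φ : Γ ≃* Heis ℤ) {N : ℕ} (hN : 2 ≤ N) {t : ℝ}
    (ht0 : 0 < t) (ht : t ≤ 2 * Real.log N) :
    ∃ C : NormalChain Γ, Tendsto (fun k => normalised C
      (Matrix.of fun _ _ => pullN φ N : Matrix (Fin 1) (Fin 1) (MonoidAlgebra ℤ Γ)) k)
      atTop (𝓝 t) := by
  have hlog : 0 < Real.log N := Real.log_pos (by exact_mod_cast (by omega : 1 < N))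
  set P : ℝ := 1 - t / (2 * Real.log N) with hP
  have hP0 : 0 ≤ P := by
    rw [hP, sub_nonneg, div_le_one (by positivity)]
    exact ht
  have hP1 : P < 1 := by
    have : 0 < t / (2 * Real.log N) := by positivity
    rw [hP]; linarith
  obtain ⟨k, h0, hpos, hodd, hdvd, h3, hcard, hmono, hlim⟩ := exists_seq P hP0 hP1
  let s : Sq := ⟨k, h0, hpos, hodd, hdvd, hmono⟩
  refine ⟨pull φ s, ?_⟩
  have h4 := (tendsto_log_D hodd h3 hcard hlim hN).const_mul 2
  have h5 : 2 * ((1 - P) * Real.log N) = t := by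
    rw [hP]
    field_simp
    ring
  rw [h5] at h4
  refine h4.congr fun i => ?_
  rw [normalised_pull φ s hN]

end Pool.Agent.Y226.FK
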