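import Pool.Agent.Helper993.HeisDet

set_option autoImplicit false

/-!
# The determinant of `1 + N t - N u t` over the congruence quotients of the Heisenberg group
-/

namespace Pool.Agent.Y226.FK

open Finset Polynomial Pool.Agent.Helper993.HeisDet

theorem prod_block {g : ℕ} (hg : 0 < g) {ζ : ℂ} (hζ : IsPrimitiveRoot ζ g) (η : ℂ) :
    ∏ j ∈ range g, (1 - η * ζ ^ j) = 1 - η ^ g := by
  have h := B_primitive hg hζ 1 η
  unfold B at h
  simp only [one_mul, one_pow] at h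
  exact add_left_cancel h

theorem prod_blocks {g : ℕ} (hg : 0 < g) {ζ : ℂ} (hζ : IsPrimitiveRoot ζ g) (η : ℂ) (d : ℕ) :
    ∏ j ∈ range (g * d), (1 - η * ζ ^ j) = (1 - η ^ g) ^ d := by
  induction d with
  | zero => simp
  | succ d ih =>
    rw [Nat.mul_succ, prod_range_add, ih, pow_succ]
    congr 1
    rw [← prod_block hg hζ η]
    refine prod_congr rfl fun j _ => ?_
    rw [pow_add, pow_mul, hζ.pow_eq_one, one_pow, one_mul]

theorem B_prim {g d : ℕ} (hg : 0 < g) {ζ : ℂ} (hζ : IsPrimitiveRoot ζ g) (N η : ℂ) :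
    B (g * d) N η ζ = 1 + N ^ (g * d) * (1 - η ^ g) ^ d := by
  unfold B
  rw [prod_mul_distrib, prod_const, card_range, prod_blocks hg hζ]

/-- The part of the determinant which belongs to the primitive roots of unity of order `g`. -/
noncomputable def PP (n m : ℕ) (N : ℂ) (g : ℕ) : ℂ :=
  ∏ η ∈ nthRootsFinset n (1 : ℂ), ∏ ζ ∈ primitiveRoots g ℂ, B m N η ζ

theorem D_eq {n k m : ℕ} (N : ℂ) : D n k m N = ∏ g ∈ k.divisors, PP n m N g := by
  unfold D PP
  rw [prod_comm (s := k.divisors)]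
  refine prod_congr rfl fun η _ => ?_
  rw [IsPrimitiveRoot.nthRoots_one_eq_biUnion_primitiveRoots, prod_biUnion]
  intro i _ j _ hij
  exact IsPrimitiveRoot.disjoint hij

theorem isIntegral_root {n : ℕ} (hn : 0 < n) {z : ℂ} (hz : z ^ n = 1) : IsIntegral ℤ z := by
  refine ⟨X ^ n - C 1, monic_X_pow_sub_C 1 hn.ne', ?_⟩
  simp [hz]

theorem isIntegral_PP {n m : ℕ} (hn : 0 < n) (N g : ℕ) : IsIntegral ℤ (PP n m (N : ℂ) g) := by
  unfold PP B
  refine IsIntegral.prod _ fun η hη => IsIntegral.prod _ fun ζ hζ => ?_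
  rw [mem_nthRootsFinset hn] at hη
  refine isIntegral_one.add (IsIntegral.prod _ fun j _ => ?_)
  have h1 : IsIntegral ℤ (N : ℂ) := by
    have := isIntegral_algebraMap (R := ℤ) (A := ℂ) (x := (N : ℤ))
    simpa using this
  refine h1.mul (isIntegral_one.sub ((isIntegral_root hn hη).mul ?_))
  have hg : 0 < g := by
    rcases Nat.eq_zero_or_pos g with h0 | h0
    · rw [h0, primitiveRoots_zero] at hζ
      exact absurd hζ (notMem_empty _)
    · exact h0
  rw [mem_primitiveRoots hg] at hζ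
  exact (isIntegral_root hg hζ.pow_eq_one).pow j

theorem PP_int {n m : ℕ} (hn : 0 < n) (hm : Odd m) {N : ℕ} (hN : 2 ≤ N) (g : ℕ) (hg : 0 < g) :
    ∃ z : ℤ, z ≠ 0 ∧ PP n m (N : ℂ) g = z := by
  induction g using Nat.strong_induction_on with
  | _ g ih =>
    haveI : NeZero n := ⟨hn.ne'⟩
    haveI : NeZero m := ⟨hm.pos.ne'⟩
    haveI : NeZero g := ⟨hg.ne'⟩
    obtain ⟨z0, hz0, -⟩ := D_int (n := n) (k := g) hm N
    have hz0' : z0 ≠ 0 := by
      rintro rfl
      have h1 := D_norm_ge_one (n := n) (k := g) hm hN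
      rw [hz0] at h1
      norm_num at h1
    have hprod : D n g m (N : ℂ) =
        (∏ d ∈ g.properDivisors, PP n m (N : ℂ) d) * PP n m (N : ℂ) g := by
      rw [D_eq, ← Nat.insert_self_properDivisors hg.ne',
        prod_insert Nat.self_notMem_properDivisors, mul_comm]
    have hex : ∃ z1 : ℤ, ∏ d ∈ g.properDivisors, PP n m (N : ℂ) d = z1 := by
      have h1 : ∀ d ∈ g.properDivisors, ∃ z : ℤ, PP n m (N : ℂ) d = z := fun d hd => by
        have hd' := Nat.mem_properDivisors.1 hd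
        obtain ⟨z, -, hz⟩ := ih d hd'.2 (Nat.pos_of_dvd_of_pos hd'.1 hg)
        exact ⟨z, hz⟩
      choose! z hz using h1
      exact ⟨∏ d ∈ g.properDivisors, z d, by push_cast; exact prod_congr rfl hz⟩
    obtain ⟨z1, hz1⟩ := hex
    rw [hprod, hz1] at hz0
    have hz1' : z1 ≠ 0 := by
      rintro rfl
      rw [Int.cast_zero, zero_mul] at hz0
      exact hz0' (by exact_mod_cast hz0.symm)
    have hq : PP n m (N : ℂ) g = algebraMap ℚ ℂ ((z0 : ℚ) / z1) := by
      have h2 : (z1 : ℂ) ≠ 0 := by exact_mod_cast hz1'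
      rw [map_div₀, eq_div_iff (by simpa using h2)]
      simp only [map_intCast]
      rw [mul_comm]
      exact hz0
    have hint : IsIntegral ℤ ((z0 : ℚ) / z1) := by
      have h3 := isIntegral_PP (m := m) hn N g
      rw [hq] at h3
      exact (isIntegral_algebraMap_iff (algebraMap ℚ ℂ).injective).1 h3
    obtain ⟨z, hz⟩ := IsIntegrallyClosed.isIntegral_iff.1 hint
    refine ⟨z, ?_, ?_⟩
    · rintro rfl
      rw [map_zero, eq_comm, div_eq_zero_iff] at hz
      rcases hz with h4 | h4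
      · exact hz0' (by exact_mod_cast h4)
      · exact hz1' (by exact_mod_cast h4)
    · rw [hq, ← hz]
      simp

theorem one_le_norm_PP {n m : ℕ} (hn : 0 < n) (hm : Odd m) {N : ℕ} (hN : 2 ≤ N) {g : ℕ}
    (hg : 0 < g) : 1 ≤ ‖PP n m (N : ℂ) g‖ := by
  obtain ⟨z, hz0, hz⟩ := PP_int hn hm hN g hg
  rw [hz, Complex.norm_intCast]
  exact_mod_cast Int.one_le_abs hz0

theorem log_PP_eq {n m : ℕ} (hn : 0 < n) (hm : Odd m) {N : ℕ} (hN : 2 ≤ N) {g : ℕ} (hg : 0 < g) :
    Real.log ‖PP n m (N : ℂ) g‖ = ∑ η ∈ nthRootsFinset n (1 : ℂ), ∑ ζ ∈ primitiveRoots g ℂ,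
      Real.log ‖B m N η ζ‖ := by
  have hne : PP n m (N : ℂ) g ≠ 0 := by
    intro h
    have h1 := one_le_norm_PP hn hm hN hg
    rw [h, norm_zero] at h1
    linarith
  unfold PP at hne ⊢
  rw [prod_ne_zero_iff] at hne
  rw [norm_prod, Real.log_prod fun η hη => norm_ne_zero_iff.2 (hne η hη)]
  refine sum_congr rfl fun η hη => ?_
  have h2 := prod_ne_zero_iff.1 (hne η hη)
  rw [norm_prod, Real.log_prod fun ζ hζ => norm_ne_zero_iff.2 (h2 ζ hζ)]

theorem card_nthRoots {n : ℕ} (hn : 0 < n) : (nthRootsFinset n (1 : ℂ)).card = n :=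
  (Complex.isPrimitiveRoot_exp n hn.ne').card_nthRootsFinset

theorem card_prim {g : ℕ} (hg : 0 < g) : (primitiveRoots g ℂ).card = g.totient :=
  (Complex.isPrimitiveRoot_exp g hg.ne').card_primitiveRoots

/-- The trivial upper bound. -/
theorem log_PP_le {n m : ℕ} (hn : 0 < n) (hm : Odd m) {N : ℕ} (hN : 2 ≤ N) {g : ℕ} (hg : 0 < g) :
    Real.log ‖PP n m (N : ℂ) g‖ ≤ g.totient * (n * (m * Real.log (2 * N + 1))) := by
  have h0 : 0 < ‖PP n m (N : ℂ) g‖ := one_pos.trans_le (one_le_norm_PP hn hm hN hg)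
  have h1 : ‖PP n m (N : ℂ) g‖ ≤ ((2 * N + 1 : ℝ) ^ m) ^ (n * g.totient) := by
    unfold PP
    rw [norm_prod]
    calc ∏ η ∈ nthRootsFinset n (1 : ℂ), ‖∏ ζ ∈ primitiveRoots g ℂ, B m N η ζ‖
        ≤ ∏ η ∈ nthRootsFinset n (1 : ℂ), ((2 * N + 1 : ℝ) ^ m) ^ g.totient := by
          apply Finset.prod_le_prod
          · intro i _; exact norm_nonneg _
          · intro η hη
            rw [norm_prod]
            calc ∏ ζ ∈ primitiveRoots g ℂ, ‖B m N η ζ‖
                ≤ ∏ ζ ∈ primitiveRoots g ℂ, ((2 * N + 1 : ℝ) ^ m) := by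
                  apply Finset.prod_le_prod
                  · intro i _; exact norm_nonneg _
                  · intro ζ hζ
                    rw [mem_primitiveRoots hg] at hζ
                    exact norm_B_le hm.pos N (norm_eq_one_of_mem hn hη)
                      (Complex.norm_eq_one_of_pow_eq_one hζ.pow_eq_one hg.ne')
              _ = _ := by rw [Finset.prod_const, card_prim hg]
      _ = _ := by rw [Finset.prod_const, card_nthRoots hn, ← pow_mul, mul_comm g.totient n]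
  have h2 := Real.log_le_log h0 h1
  rw [Real.log_pow, Real.log_pow] at h2
  push_cast at h2
  linarith

/-- A root of unity of order dividing `d` which is not `1` is not close to `1`. -/
theorem norm_one_sub_ge {d : ℕ} {w : ℂ} (hw : w ^ d = 1) (hw1 : w ≠ 1) (hd : 0 < d) :
    1 / (d : ℝ) ≤ ‖1 - w‖ := by
  have hn : ‖w‖ = 1 := Complex.norm_eq_one_of_pow_eq_one hw hd.ne'
  have hdR : (0 : ℝ) < d := by exact_mod_cast hd
  have h1 : ∑ j ∈ range d, w ^ j = 0 := by
    have h := mul_geom_sum w d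
    rw [hw, sub_self] at h
    exact (mul_eq_zero.1 h).resolve_left (sub_ne_zero.2 hw1)
  have h2 : ∀ j : ℕ, ‖1 - w ^ j‖ ≤ j * ‖1 - w‖ := by
    intro j
    induction j with
    | zero => simp
    | succ j ih =>
      have h3 : 1 - w ^ (j + 1) = (1 - w ^ j) + w ^ j * (1 - w) := by ring
      rw [h3]
      refine (norm_add_le _ _).trans ?_
      rw [norm_mul, norm_pow, hn, one_pow, one_mul]
      push_cast
      linarith
  have h4 : (d : ℝ) ≤ d * (d * ‖1 - w‖) := by
    calc (d : ℝ) = ‖∑ j ∈ range d, (1 - w ^ j)‖ := by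
          rw [sum_sub_distrib, h1, sub_zero, sum_const, card_range, nsmul_eq_mul, mul_one,
            Complex.norm_natCast]
      _ ≤ ∑ j ∈ range d, ‖1 - w ^ j‖ := norm_sum_le _ _
      _ ≤ ∑ _j ∈ range d, d * ‖1 - w‖ := by
          refine sum_le_sum fun j hj => (h2 j).trans ?_
          have : (j : ℝ) ≤ d := by exact_mod_cast (mem_range.1 hj).le
          exact mul_le_mul_of_nonneg_right this (norm_nonneg _)
      _ = _ := by rw [sum_const, card_range, nsmul_eq_mul]
  have h5 : 1 ≤ d * ‖1 - w‖ := by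
    have := le_of_mul_le_mul_left (by linarith : (d : ℝ) * 1 ≤ d * (d * ‖1 - w‖)) hdR
    exact this
  rw [div_le_iff₀ hdR]
  linarith

theorem log_one_add {z : ℂ} (hz : 2 ≤ ‖z‖) :
    |Real.log ‖1 + z‖ - Real.log ‖z‖| ≤ Real.log 2 := by
  have h0 : (0 : ℝ) < ‖z‖ := by linarith
  have h1 : ‖z‖ / 2 ≤ ‖1 + z‖ := by
    have h2 : ‖z‖ - ‖(1 : ℂ)‖ ≤ ‖z + 1‖ := by
      have := norm_sub_norm_le z (-1)
      rw [norm_neg, sub_neg_eq_add] at this
      exact this
    rw [norm_one, add_comm z 1] at h2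
    linarith
  have h2 : ‖1 + z‖ ≤ ‖z‖ * 2 := by
    have := norm_add_le 1 z
    rw [norm_one] at this
    linarith
  have h3 : 0 < ‖1 + z‖ := lt_of_lt_of_le (by linarith) h1
  rw [abs_le]
  constructor
  · have := Real.log_le_log (by positivity) h1
    rw [Real.log_div h0.ne' two_ne_zero] at this
    linarith
  · have := Real.log_le_log h3 h2
    rw [Real.log_mul h0.ne' two_ne_zero] at this
    linarith

/-- The value of one block. -/
theorem log_B {g d : ℕ} (hg : 0 < g) (hd : 0 < d) {N : ℕ} (hN : 2 ≤ N) (hgd : 2 * d ≤ N ^ g)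
    {ζ η : ℂ} (hζ : IsPrimitiveRoot ζ g) (hη : η ^ (g * d) = 1) (hη1 : η ^ g ≠ 1) :
    |Real.log ‖B (g * d) N η ζ‖ - (g * d : ℕ) * Real.log N| ≤ d * (Real.log (g * d : ℕ) + 2) := by
  set w := η ^ g with hw
  have hwd : w ^ d = 1 := by rw [hw, ← pow_mul]; exact hη
  have hdR : (0 : ℝ) < d := by exact_mod_cast hd
  have hd1 : (1 : ℝ) ≤ d := by exact_mod_cast hd
  have hNR : (2 : ℝ) ≤ N := by exact_mod_cast hN
  have h1 := norm_one_sub_ge hwd hη1 hd
  have hwn : ‖w‖ = 1 := Complex.norm_eq_one_of_pow_eq_one hwd hd.ne'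
  have h2 : ‖1 - w‖ ≤ 2 := by
    have := norm_sub_le 1 w
    rw [norm_one, hwn] at this
    linarith
  have h0 : 0 < ‖1 - w‖ := lt_of_lt_of_le (by positivity) h1
  rw [B_prim hg hζ]
  set z : ℂ := (N : ℂ) ^ (g * d) * (1 - w) ^ d with hz
  have hzn : ‖z‖ = (N : ℝ) ^ (g * d) * ‖1 - w‖ ^ d := by
    rw [hz, norm_mul, norm_pow, norm_pow, Complex.norm_natCast]
  have hz2 : 2 ≤ ‖z‖ := by
    have h3 : (2 : ℝ) ≤ (N : ℝ) ^ g * ‖1 - w‖ := by
      have h4 : (2 * d : ℝ) ≤ (N : ℝ) ^ g := by exact_mod_cast hgd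
      calc (2 : ℝ) = 2 * d * (1 / d) := by field_simp
        _ ≤ (N : ℝ) ^ g * ‖1 - w‖ := mul_le_mul h4 h1 (by positivity) (by positivity)
    have h5 : ‖z‖ = ((N : ℝ) ^ g * ‖1 - w‖) ^ d := by rw [hzn, mul_pow, ← pow_mul]
    rw [h5]
    calc (2 : ℝ) ≤ (N : ℝ) ^ g * ‖1 - w‖ := h3
      _ = ((N : ℝ) ^ g * ‖1 - w‖) ^ 1 := (pow_one _).symm
      _ ≤ _ := pow_le_pow_right₀ (by linarith) hd
  have h6 := log_one_add hz2
  have h7 : Real.log ‖z‖ = (g * d : ℕ) * Real.log N + d * Real.log ‖1 - w‖ := by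
    rw [hzn, Real.log_mul (by positivity) (by positivity), Real.log_pow, Real.log_pow]
  have h8 : Real.log ‖1 - w‖ ≤ Real.log 2 := Real.log_le_log h0 h2
  have h9 : -Real.log d ≤ Real.log ‖1 - w‖ := by
    have := Real.log_le_log (by positivity) h1
    rw [one_div, Real.log_inv] at this
    exact this
  have h10 : Real.log d ≤ Real.log (g * d : ℕ) := by
    refine Real.log_le_log hdR ?_
    exact_mod_cast Nat.le_mul_of_pos_left d hg
  have h11 : 0 ≤ Real.log d := Real.log_nonneg hd1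
  have hl2 : Real.log 2 < 0.6931471808 := Real.log_two_lt_d9
  have hl2' : 0 < Real.log 2 := Real.log_pos (by norm_num)
  rw [h7] at h6
  rw [abs_le] at h6 ⊢
  constructor
  · have h12 : d * -Real.log (g * d : ℕ) ≤ d * Real.log ‖1 - w‖ :=
      mul_le_mul_of_nonneg_left (by linarith) hdR.le
    nlinarith [h6.1]
  · have h12 : d * Real.log ‖1 - w‖ ≤ d * Real.log 2 := mul_le_mul_of_nonneg_left h8 hdR.le
    have h13 : 0 ≤ d * Real.log (g * d : ℕ) := mul_nonneg hdR.le (by linarith)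
    nlinarith [h6.2]

end Pool.Agent.Y226.FK
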