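import Mathlib

set_option autoImplicit false

/-!
# Sequences of odd square-free numbers with prescribed limit of `∑_{g ∣ k} g φ(g) / k²`
-/

namespace Pool.Agent.Y226.FK

open Finset Filter Topology

theorem sum_divisors_mul_prime {M : Type*} [AddCommMonoid M] (N p : ℕ) (hN : 0 < N) (hp : p.Prime)
    (hpN : ¬ p ∣ N) (F : ℕ → M) :
    ∑ f ∈ (N * p).divisors, F f = ∑ f ∈ N.divisors, F f + ∑ f ∈ N.divisors, F (f * p) := by
  classical
  have h1 : (N * p).divisors = N.divisors ∪ N.divisors.image (fun f => f * p) := by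
    ext f
    rw [mem_union, mem_image, Nat.mem_divisors, Nat.mem_divisors]
    constructor
    · rintro ⟨hd, h0⟩
      by_cases hpf : p ∣ f
      · right
        obtain ⟨g, rfl⟩ := hpf
        refine ⟨g, ?_, mul_comm _ _⟩
        rw [Nat.mem_divisors]
        refine ⟨?_, hN.ne'⟩
        rw [mul_comm N p] at hd
        exact (Nat.mul_dvd_mul_iff_left hp.pos).1 hd
      · left
        refine ⟨?_, hN.ne'⟩
        have hc : Nat.Coprime f p := (Nat.coprime_comm.1 ((Nat.Prime.coprime_iff_not_dvd hp).2 hpf))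
        exact hc.dvd_of_dvd_mul_right hd
    · rintro (⟨hd, _⟩ | ⟨g, hg, rfl⟩)
      · exact ⟨hd.mul_right p, by have := hp.pos; positivity⟩
      · rw [Nat.mem_divisors] at hg
        exact ⟨Nat.mul_dvd_mul_right hg.1 p, by have := hp.pos; positivity⟩
  have h2 : Disjoint N.divisors (N.divisors.image (fun f => f * p)) := by
    rw [Finset.disjoint_left]
    intro f hf hf2
    rw [mem_image] at hf2
    obtain ⟨g, _, rfl⟩ := hf2
    rw [Nat.mem_divisors] at hf
    exact hpN ((Dvd.intro_left g rfl).trans hf.1)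
  rw [h1, sum_union h2, sum_image]
  intro a _ b _ hab
  exact Nat.eq_of_mul_eq_mul_right hp.pos hab

/-- `∑_{g ∣ k} g φ(g) / k²`. -/
noncomputable def hh (k : ℕ) : ℝ := (∑ g ∈ k.divisors, (g : ℝ) * (g.totient : ℝ)) / (k : ℝ) ^ 2

theorem hh_one : hh 1 = 1 := by simp [hh]

/-- `1 - 1/q + 1/q²`. -/
noncomputable def cc (q : ℕ) : ℝ := 1 - 1 / (q : ℝ) + 1 / (q : ℝ) ^ 2

theorem hh_mul_prime {k q : ℕ} (hk : 0 < k) (hq : q.Prime) (hqk : ¬ q ∣ k) :
    hh (k * q) = hh k * cc q := by
  have hq0 : (q : ℝ) ≠ 0 := by exact_mod_cast hq.pos.ne'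
  have hk0 : (k : ℝ) ≠ 0 := by exact_mod_cast hk.ne'
  have h1 : ∑ g ∈ k.divisors, ((g * q : ℕ) : ℝ) * ((g * q).totient : ℝ) =
      ((q : ℝ) * (q - 1)) * ∑ g ∈ k.divisors, (g : ℝ) * (g.totient : ℝ) := by
    rw [mul_sum]
    refine sum_congr rfl fun g hg => ?_
    have hgk : g ∣ k := Nat.dvd_of_mem_divisors hg
    have hc : Nat.Coprime g q :=
      Nat.coprime_comm.1 ((Nat.Prime.coprime_iff_not_dvd hq).2 fun h => hqk (h.trans hgk))
    rw [Nat.totient_mul hc, Nat.totient_prime hq, Nat.cast_mul, Nat.cast_mul,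
      Nat.cast_sub hq.one_lt.le]
    push_cast
    ring
  unfold hh cc
  rw [sum_divisors_mul_prime k q hk hq hqk (fun g => (g : ℝ) * (g.totient : ℝ)), h1]
  push_cast
  field_simp
  ring

theorem card_mul_prime {k q : ℕ} (hk : 0 < k) (hq : q.Prime) (hqk : ¬ q ∣ k) :
    (k * q).divisors.card = 2 * k.divisors.card := by
  have h := sum_divisors_mul_prime k q hk hq hqk (fun _ => (1 : ℕ))
  simp only [sum_const, smul_eq_mul, mul_one] at h
  omega

theorem cc_pos {q : ℕ} (hq : 2 ≤ q) : 0 < cc q := by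
  unfold cc
  have h2 : (2 : ℝ) ≤ q := by exact_mod_cast hq
  have h3 : 1 / (q : ℝ) ≤ 1 / 2 := one_div_le_one_div_of_le (by norm_num) h2
  have h4 : 0 < 1 / (q : ℝ) ^ 2 := by positivity
  linarith

theorem cc_le {q : ℕ} (hq : 2 ≤ q) : cc q ≤ 1 - 1 / 2 * (1 / (q : ℝ)) := by
  unfold cc
  have h2 : (2 : ℝ) ≤ q := by exact_mod_cast hq
  have h3 : 1 / (q : ℝ) ≤ 1 / 2 := one_div_le_one_div_of_le (by norm_num) h2
  have h5 : 0 < 1 / (q : ℝ) := by positivity
  have h4 : 1 / (q : ℝ) ^ 2 = 1 / (q : ℝ) * (1 / (q : ℝ)) := by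
    field_simp
  rw [h4]
  nlinarith

theorem cc_tendsto : Tendsto cc atTop (𝓝 1) := by
  have h1 : Tendsto (fun q : ℕ => 1 / (q : ℝ)) atTop (𝓝 0) := tendsto_one_div_atTop_nhds_zero_nat
  have h2 : Tendsto (fun q : ℕ => 1 / (q : ℝ) ^ 2) atTop (𝓝 0) := by
    have := h1.mul h1
    rw [mul_zero] at this
    refine this.congr fun q => ?_
    rw [div_mul_div_comm, one_mul, sq]
  have h3 := ((tendsto_const_nhds (x := (1 : ℝ))).sub h1).add h2
  rw [sub_zero, add_zero] at h3
  exact h3

theorem eventually_lt {a P : ℝ} (h : P < a) : ∀ᶠ q : ℕ in atTop, P < a * cc q := by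
  have h1 : Tendsto (fun q => a * cc q) atTop (𝓝 (a * 1)) := cc_tendsto.const_mul a
  rw [mul_one] at h1
  exact h1.eventually_const_lt h

theorem exists_prime {a P : ℝ} (h : P < a) (Q : ℕ) :
    ∃ q : ℕ, q.Prime ∧ Q < q ∧ P < a * cc q := by
  obtain ⟨M, hM⟩ := eventually_atTop.1 (eventually_lt h)
  obtain ⟨q, hq, hqp⟩ := Nat.exists_infinite_primes (max M (Q + 1))
  exact ⟨q, hqp, by have := le_max_right M (Q + 1); omega, hM q ((le_max_left _ _).trans hq)⟩

/-- The states of the greedy algorithm. -/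
structure St (P : ℝ) where
  k : ℕ
  q : ℕ
  pos : 0 < k
  odd : Odd k
  two : 2 ≤ q
  lt : P < hh k
  le : ∀ p : ℕ, p.Prime → p ∣ k → p ≤ q

open Classical in
/-- The next prime number. -/
noncomputable def nxt {P : ℝ} (s : St P) : ℕ := Nat.find (exists_prime s.lt s.q)

open Classical in
theorem nxt_spec {P : ℝ} (s : St P) :
    (nxt s).Prime ∧ s.q < nxt s ∧ P < hh s.k * cc (nxt s) :=
  Nat.find_spec (exists_prime s.lt s.q)

open Classical in
theorem nxt_min {P : ℝ} (s : St P) {p : ℕ} (hp : p.Prime) (h1 : s.q < p)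
    (h2 : P < hh s.k * cc p) : nxt s ≤ p :=
  Nat.find_min' (exists_prime s.lt s.q) ⟨hp, h1, h2⟩

theorem nxt_not_dvd {P : ℝ} (s : St P) : ¬ nxt s ∣ s.k := by
  intro h
  have h1 := s.le _ (nxt_spec s).1 h
  have h2 := (nxt_spec s).2.1
  omega

/-- One step. -/
noncomputable def step {P : ℝ} (s : St P) : St P where
  k := s.k * nxt s
  q := nxt s
  pos := Nat.mul_pos s.pos (nxt_spec s).1.pos
  odd := s.odd.mul ((nxt_spec s).1.odd_of_ne_two (by
    have := (nxt_spec s).2.1
    have := s.two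
    omega))
  two := (nxt_spec s).1.two_le
  lt := by
    rw [hh_mul_prime s.pos (nxt_spec s).1 (nxt_not_dvd s)]
    exact (nxt_spec s).2.2
  le := by
    intro p hp hpk
    rcases (Nat.Prime.dvd_mul hp).1 hpk with h | h
    · exact (s.le p hp h).trans (nxt_spec s).2.1.le
    · exact Nat.le_of_dvd (nxt_spec s).1.pos h

/-- The sequence of the states. -/
noncomputable def seq {P : ℝ} (s0 : St P) (i : ℕ) : St P := step^[i] s0

theorem seq_succ {P : ℝ} (s0 : St P) (i : ℕ) : seq s0 (i + 1) = step (seq s0 i) := by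
  unfold seq
  rw [Function.iterate_succ_apply']

theorem q_strictMono {P : ℝ} (s0 : St P) : StrictMono fun i => (seq s0 i).q := by
  refine strictMono_nat_of_lt_succ fun i => ?_
  rw [seq_succ]
  exact (nxt_spec (seq s0 i)).2.1

theorem hh_succ {P : ℝ} (s0 : St P) (i : ℕ) :
    hh (seq s0 (i + 1)).k = hh (seq s0 i).k * cc (seq s0 (i + 1)).q := by
  rw [seq_succ]
  exact hh_mul_prime (seq s0 i).pos (nxt_spec _).1 (nxt_not_dvd _)

theorem hh_pos {k : ℕ} (hk : 0 < k) : 0 < hh k := by
  unfold hh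
  have h1 : 0 < ∑ g ∈ k.divisors, (g : ℝ) * (g.totient : ℝ) := by
    refine sum_pos (fun g hg => ?_) ⟨1, by simp [hk.ne']⟩
    have h2 := Nat.pos_of_mem_divisors hg
    have h3 := Nat.totient_pos.2 h2
    positivity
  have : (0 : ℝ) < k := by exact_mod_cast hk
  positivity

theorem seq_tendsto {P : ℝ} (hP : 0 ≤ P) (s0 : St P) :
    Tendsto (fun i => hh (seq s0 i).k) atTop (𝓝 P) := by
  set a : ℕ → ℝ := fun i => hh (seq s0 i).k with ha
  have hsucc : ∀ i, a (i + 1) = a i * cc (seq s0 (i + 1)).q := fun i => hh_succ s0 i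
  have hapos : ∀ i, 0 < a i := fun i => hh_pos (seq s0 i).pos
  have hq2 : ∀ i, 2 ≤ (seq s0 i).q := fun i => (seq s0 i).two
  have hle1 : ∀ i, cc (seq s0 i).q ≤ 1 := fun i => by
    have h1 := cc_le (hq2 i)
    have h2 : 0 ≤ 1 / 2 * (1 / ((seq s0 i).q : ℝ)) := by positivity
    linarith
  have hanti : Antitone a := antitone_nat_of_succ_le fun i => by
    rw [hsucc i]
    exact mul_le_of_le_one_right (hapos i).le (hle1 _)
  have hbdd : BddBelow (Set.range a) := ⟨P, by rintro x ⟨i, rfl⟩; exact (seq s0 i).lt.le⟩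
  have hlim := tendsto_atTop_ciInf hanti hbdd
  set L := ⨅ i, a i with hL
  have hLle : ∀ i, L ≤ a i := fun i => ciInf_le hbdd i
  have hPL : P ≤ L := le_ciInf fun i => (seq s0 i).lt.le
  rcases eq_or_lt_of_le hPL with h | h
  · rw [h]; exact hlim
  · exfalso
    have hLpos : 0 < L := hP.trans_lt h
    obtain ⟨Q, hQ⟩ := eventually_atTop.1 (eventually_lt h)
    have hqtop : Tendsto (fun i => (seq s0 i).q) atTop atTop := (q_strictMono s0).tendsto_atTop
    obtain ⟨i0, hi0⟩ := eventually_atTop.1 (hqtop.eventually_ge_atTop Q)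
    have hall : ∀ p : ℕ, p.Prime → (seq s0 i0).q < p → ∃ j, (seq s0 (j + 1)).q = p := by
      intro p hp hpq
      have hex : ∃ j, p ≤ (seq s0 j).q := (hqtop.eventually_ge_atTop p).exists
      classical
      set j := Nat.find hex with hj
      have hj1 : p ≤ (seq s0 j).q := Nat.find_spec hex
      have hji : i0 < j := by
        by_contra hcon
        push Not at hcon
        have h9 : (seq s0 j).q ≤ (seq s0 i0).q := (q_strictMono s0).monotone hcon
        omega
      obtain ⟨j', hj'⟩ : ∃ j', j = j' + 1 := ⟨j - 1, by omega⟩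
      refine ⟨j', ?_⟩
      rw [← hj']
      refine le_antisymm ?_ hj1
      have hlt : (seq s0 j').q < p := by
        by_contra hcon
        push Not at hcon
        have := Nat.find_min' hex hcon
        omega
      have hQ' : Q ≤ p := (hi0 j' (by omega)).trans hlt.le
      have h2 : P < hh (seq s0 j').k * cc p := by
        refine (hQ p hQ').trans_le ?_
        exact mul_le_mul_of_nonneg_right (hLle j') (cc_pos hp.two_le).le
      have h3 := nxt_min (seq s0 j') hp hlt h2
      rw [hj', seq_succ]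
      exact h3
    -- the sum of the reciprocals converges
    have hlog : ∀ n, ∑ j ∈ range n, 1 / 2 * (1 / ((seq s0 (j + 1)).q : ℝ)) ≤
        Real.log (a 0) - Real.log (a n) := by
      intro n
      induction n with
      | zero => simp
      | succ n ih =>
        rw [sum_range_succ, hsucc n, Real.log_mul (hapos n).ne' (cc_pos (hq2 _)).ne']
        have h1 := Real.log_le_sub_one_of_pos (cc_pos (hq2 (n + 1)))
        have h2 := cc_le (hq2 (n + 1))
        linarith
    have hsum : Summable fun j : ℕ => 1 / ((seq s0 (j + 1)).q : ℝ) := by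
      have h1 : Summable fun j : ℕ => 1 / 2 * (1 / ((seq s0 (j + 1)).q : ℝ)) := by
        refine summable_of_sum_range_le (c := Real.log (a 0) - Real.log L)
          (fun j => by positivity) fun n => (hlog n).trans ?_
        have := Real.log_le_log hLpos (hLle n)
        linarith
      have h2 := h1.mul_left 2
      refine h2.congr fun j => ?_
      ring
    set f : ℕ → ℝ := Set.indicator (Set.range fun j => (seq s0 (j + 1)).q)
      (fun n : ℕ => 1 / (n : ℝ)) with hf
    have hinj : Function.Injective fun j => (seq s0 (j + 1)).q := by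
      intro i j hij
      have := (q_strictMono s0).injective hij
      omega
    have hfs : Summable f := by
      rw [← hinj.summable_iff (f := f)]
      · refine hsum.congr fun j => ?_
        simp only [hf, Function.comp_apply]
        rw [Set.indicator_of_mem (Set.mem_range_self (f := fun j => (seq s0 (j + 1)).q) j)]
      · intro x hx
        exact Set.indicator_of_notMem hx _
    refine not_summable_one_div_on_primes
      (Summable.of_norm_bounded_eventually_nat hfs ?_)
    refine eventually_atTop.2 ⟨(seq s0 i0).q + 1, fun p hp => ?_⟩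
    by_cases hpp : p ∈ {p : ℕ | p.Prime}
    · rw [Set.indicator_of_mem hpp]
      obtain ⟨j, hj⟩ := hall p hpp (by omega)
      have hmem : p ∈ Set.range fun j => (seq s0 (j + 1)).q := ⟨j, hj⟩
      rw [hf, Set.indicator_of_mem hmem, Real.norm_of_nonneg (by positivity)]
    · rw [Set.indicator_of_notMem hpp, norm_zero]
      exact Set.indicator_nonneg (fun x _ => by positivity) _

/-- The sequences used for the chains. -/
theorem exists_seq (P : ℝ) (hP0 : 0 ≤ P) (hP1 : P < 1) : ∃ k : ℕ → ℕ, k 0 = 1 ∧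
    (∀ i, 0 < k i) ∧ (∀ i, Odd (k i)) ∧ (∀ i, k i ∣ k (i + 1)) ∧ (∀ i, 3 ^ i ≤ k i) ∧
    (∀ i, (k i).divisors.card = 2 ^ i) ∧ StrictMono k ∧
    Tendsto (fun i => hh (k i)) atTop (𝓝 P) := by
  let s0 : St P :=
    { k := 1
      q := 2
      pos := one_pos
      odd := odd_one
      two := le_rfl
      lt := by rw [hh_one]; exact hP1
      le := fun p hp h => by
        have := Nat.dvd_one.1 h
        exact absurd this hp.one_lt.ne' }
  have h3 : ∀ i, 3 ≤ nxt (seq s0 i) := fun i => by
    have h1 := (nxt_spec (seq s0 i)).2.1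
    have h2 := (seq s0 i).two
    omega
  refine ⟨fun i => (seq s0 i).k, rfl, fun i => (seq s0 i).pos, fun i => (seq s0 i).odd, fun i => ?_,
    fun i => ?_, fun i => ?_, ?_, seq_tendsto hP0 s0⟩
  · show (seq s0 i).k ∣ (seq s0 (i + 1)).k
    rw [seq_succ]
    exact Dvd.intro _ rfl
  · induction i with
    | zero => simp [seq, s0]
    | succ i ih =>
      show 3 ^ (i + 1) ≤ (seq s0 (i + 1)).k
      rw [seq_succ, pow_succ]
      exact Nat.mul_le_mul ih (h3 i)
  · induction i with
    | zero => simp [seq, s0]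
    | succ i ih =>
      show (seq s0 (i + 1)).k.divisors.card = 2 ^ (i + 1)
      rw [seq_succ, pow_succ]
      show ((seq s0 i).k * nxt (seq s0 i)).divisors.card = _
      have ih' : (seq s0 i).k.divisors.card = 2 ^ i := ih
      rw [card_mul_prime (seq s0 i).pos (nxt_spec _).1 (nxt_not_dvd _), ih', mul_comm]
  · refine strictMono_nat_of_lt_succ fun i => ?_
    rw [seq_succ]
    show (seq s0 i).k < (seq s0 i).k * nxt (seq s0 i)
    have h1 := (seq s0 i).pos
    have h2 := h3 i
    nlinarith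

end Pool.Agent.Y226.FK
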