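import Pool.Agent.Y226.FK.Det
import Pool.Agent.Y226.FK.Num

set_option autoImplicit false

/-!
# The asymptotic behaviour of the determinants
-/

namespace Pool.Agent.Y226.FK

open Finset Polynomial Filter Topology Pool.Agent.Helper993.HeisDet

theorem card_filter_one {k g : ℕ} (hk : 0 < k) (hgk : g ∣ k) :
    ((nthRootsFinset k (1 : ℂ)).filter fun η => η ^ g = 1).card = g := by
  have hg : 0 < g := Nat.pos_of_dvd_of_pos hgk hk
  have h1 : ((nthRootsFinset k (1 : ℂ)).filter fun η => η ^ g = 1) = nthRootsFinset g (1 : ℂ) := by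
    ext η
    rw [mem_filter, mem_nthRootsFinset hk, mem_nthRootsFinset hg]
    refine ⟨fun h => h.2, fun h => ⟨?_, h⟩⟩
    obtain ⟨d, rfl⟩ := hgk
    rw [pow_mul, h, one_pow]
  rw [h1, card_nthRoots hg]

theorem sum_main {k g : ℕ} (hk : 0 < k) (hgk : g ∣ k) (c : ℝ) :
    ∑ η ∈ nthRootsFinset k (1 : ℂ), (if η ^ g = 1 then 0 else c) = ((k : ℝ) - g) * c := by
  classical
  have h1 : ∀ η : ℂ, (if η ^ g = 1 then (0 : ℝ) else c) = c - (if η ^ g = 1 then c else 0) := by
    intro η
    split_ifs <;> simp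
  rw [sum_congr rfl fun η _ => h1 η, sum_sub_distrib, ← sum_filter, sum_const, sum_const,
    card_nthRoots hk, card_filter_one hk hgk, nsmul_eq_mul, nsmul_eq_mul]
  ring

theorem two_log_ge {N : ℕ} (hN : 2 ≤ N) : 1 ≤ 2 * Real.log (2 * N + 1) := by
  have h1 : (2 : ℝ) ≤ N := by exact_mod_cast hN
  have h2 : Real.log 2 ≤ Real.log (2 * N + 1) := Real.log_le_log (by norm_num) (by linarith)
  have h3 := Real.log_two_gt_d9
  linarith

/-- The main estimate for one order. -/
theorem main_g {k g : ℕ} (hk : Odd k) (hgk : g ∣ k) {N : ℕ} (hN : 2 ≤ N) :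
    |Real.log ‖PP k k (N : ℂ) g‖ - g.totient * (((k : ℝ) - g) * (k * Real.log N))| ≤
      2 * Real.log (2 * N + 1) * ((k : ℝ) ^ 2 * (Real.log k + 2)) := by
  have hk0 : 0 < k := hk.pos
  have hg : 0 < g := Nat.pos_of_dvd_of_pos hgk hk0
  obtain ⟨d, hd⟩ := id hgk
  have hd0 : 0 < d := by
    rcases Nat.eq_zero_or_pos d with h | h
    · rw [h, mul_zero] at hd; omega
    · exact h
  have hkR : (1 : ℝ) ≤ k := by exact_mod_cast hk0
  have hgR : (1 : ℝ) ≤ g := by exact_mod_cast hg
  have hdR : (1 : ℝ) ≤ d := by exact_mod_cast hd0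
  have hkgd : (k : ℝ) = g * d := by exact_mod_cast hd
  have hNR : (2 : ℝ) ≤ N := by exact_mod_cast hN
  have hlogk : 0 ≤ Real.log k := Real.log_nonneg hkR
  have hlN : 0 ≤ Real.log N := Real.log_nonneg (by linarith)
  have hC := two_log_ge hN
  have hphi : (g.totient : ℝ) ≤ g := by exact_mod_cast Nat.totient_le g
  have hphi0 : (0 : ℝ) ≤ g.totient := Nat.cast_nonneg _
  by_cases hcase : 2 * d ≤ N ^ g
  · -- large orders
    have hm : (g.totient : ℝ) * (((k : ℝ) - g) * (k * Real.log N)) =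
        ∑ η ∈ nthRootsFinset k (1 : ℂ), ∑ _ζ ∈ primitiveRoots g ℂ,
          (if η ^ g = 1 then (0 : ℝ) else k * Real.log N) := by
      rw [← sum_main hk0 hgk, mul_sum]
      refine sum_congr rfl fun η _ => ?_
      rw [sum_const, card_prim hg, nsmul_eq_mul]
    rw [log_PP_eq hk0 hk hN hg, hm, ← sum_sub_distrib]
    have h1 : ∀ η ∈ nthRootsFinset k (1 : ℂ), |∑ ζ ∈ primitiveRoots g ℂ, Real.log ‖B k N η ζ‖ -
        ∑ _ζ ∈ primitiveRoots g ℂ, (if η ^ g = 1 then (0 : ℝ) else k * Real.log N)| ≤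
        g * (d * (Real.log k + 2)) := by
      intro η hη
      rw [mem_nthRootsFinset hk0] at hη
      rw [← sum_sub_distrib]
      refine (abs_sum_le_sum_abs _ _).trans ?_
      have h2 : ∀ ζ ∈ primitiveRoots g ℂ, |Real.log ‖B k N η ζ‖ -
          (if η ^ g = 1 then (0 : ℝ) else k * Real.log N)| ≤ d * (Real.log k + 2) := by
        intro ζ hζ
        rw [mem_primitiveRoots hg] at hζ
        split_ifs with h
        · rw [hd, B_prim hg hζ, h, sub_self, zero_pow hd0.ne', mul_zero, add_zero, norm_one,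
            Real.log_one, sub_zero, abs_zero, ← hd]
          positivity
        · have h3 := log_B hg hd0 hN hcase hζ (by rw [← hd]; exact hη) h
          rw [← hd] at h3
          exact h3
      refine (sum_le_sum h2).trans ?_
      rw [sum_const, card_prim hg, nsmul_eq_mul]
      exact mul_le_mul_of_nonneg_right hphi (by positivity)
    refine (abs_sum_le_sum_abs _ _).trans ((sum_le_sum h1).trans ?_)
    rw [sum_const, card_nthRoots hk0, nsmul_eq_mul]
    have h4 : (k : ℝ) * (g * (d * (Real.log k + 2))) = 1 * ((k : ℝ) ^ 2 * (Real.log k + 2)) := by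
      rw [hkgd]; ring
    rw [h4]
    exact mul_le_mul_of_nonneg_right hC (by positivity)
  · -- small orders
    push Not at hcase
    have h1 : (g : ℝ) ≤ 2 * (Real.log k + 2) := by
      have h2 : (N : ℝ) ^ g ≤ 2 * k := by
        have h3 : N ^ g ≤ 2 * k := by
          have : d ≤ k := by rw [hd]; exact Nat.le_mul_of_pos_left d hg
          omega
        exact_mod_cast h3
      have h3 : (2 : ℝ) ^ g ≤ 2 * k := (pow_le_pow_left₀ (by norm_num) hNR g).trans h2
      have h4 := Real.log_le_log (by positivity) h3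
      rw [Real.log_pow, Real.log_mul (by norm_num) (by linarith)] at h4
      have h5 := Real.log_two_gt_d9
      have h6 := Real.log_two_lt_d9
      nlinarith
    have hlog : Real.log N ≤ Real.log (2 * N + 1) := Real.log_le_log (by linarith) (by linarith)
    have hu := log_PP_le hk0 hk hN hg
    have hl := Real.log_nonneg (one_le_norm_PP hk0 hk hN hg)
    have hkg : (g : ℝ) ≤ k := by exact_mod_cast Nat.le_of_dvd hk0 hgk
    have hm0 : 0 ≤ (g.totient : ℝ) * (((k : ℝ) - g) * (k * Real.log N)) :=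
      mul_nonneg hphi0 (mul_nonneg (by linarith) (by positivity))
    have hlog0 : 0 ≤ Real.log (2 * N + 1) := by linarith
    have hm1 : (g.totient : ℝ) * (((k : ℝ) - g) * (k * Real.log N)) ≤
        g.totient * (k * (k * Real.log (2 * N + 1))) := by
      refine mul_le_mul_of_nonneg_left ?_ hphi0
      exact mul_le_mul (by linarith) (mul_le_mul_of_nonneg_left hlog (by linarith))
        (by positivity) (by linarith)
    have hfin : (g.totient : ℝ) * (k * (k * Real.log (2 * N + 1))) ≤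
        2 * Real.log (2 * N + 1) * ((k : ℝ) ^ 2 * (Real.log k + 2)) := by
      have h7 : (g.totient : ℝ) * (k * (k * Real.log (2 * N + 1))) ≤
          (2 * (Real.log k + 2)) * (k * (k * Real.log (2 * N + 1))) :=
        mul_le_mul_of_nonneg_right (hphi.trans h1) (by positivity)
      refine h7.trans (le_of_eq ?_)
      ring
    rw [abs_le]
    constructor <;> linarith

/-- The normalised logarithm of the determinant. -/
theorem log_D {k : ℕ} (hk : Odd k) {N : ℕ} (hN : 2 ≤ N) :
    |Real.log ‖D k k k (N : ℂ)‖ / (k : ℝ) ^ 3 - (1 - hh k) * Real.log N| ≤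
      2 * Real.log (2 * N + 1) * (k.divisors.card * ((Real.log k + 2) / k)) := by
  have hk0 : 0 < k := hk.pos
  have hkR : (0 : ℝ) < k := by exact_mod_cast hk0
  have hlogD : Real.log ‖D k k k (N : ℂ)‖ = ∑ g ∈ k.divisors, Real.log ‖PP k k (N : ℂ) g‖ := by
    rw [D_eq, norm_prod, Real.log_prod]
    intro g hg
    have := one_le_norm_PP hk0 hk hN (Nat.pos_of_mem_divisors hg)
    intro h
    linarith
  have hmain : ∑ g ∈ k.divisors, (g.totient : ℝ) * (((k : ℝ) - g) * (k * Real.log N)) =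
      (k : ℝ) ^ 3 * ((1 - hh k) * Real.log N) := by
    have h1 : ∑ g ∈ k.divisors, (g.totient : ℝ) = k := by
      exact_mod_cast Nat.sum_totient k
    have h2 : ∑ g ∈ k.divisors, (g.totient : ℝ) * (((k : ℝ) - g) * (k * Real.log N)) =
        k * (k * Real.log N) * ∑ g ∈ k.divisors, (g.totient : ℝ) -
          (k * Real.log N) * ∑ g ∈ k.divisors, (g : ℝ) * (g.totient : ℝ) := by
      rw [mul_sum, mul_sum, ← sum_sub_distrib]
      exact sum_congr rfl fun g _ => by ring
    rw [h2, h1]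
    unfold hh
    field_simp
  have h3 : |Real.log ‖D k k k (N : ℂ)‖ - (k : ℝ) ^ 3 * ((1 - hh k) * Real.log N)| ≤
      k.divisors.card * (2 * Real.log (2 * N + 1) * ((k : ℝ) ^ 2 * (Real.log k + 2))) := by
    rw [hlogD, ← hmain, ← sum_sub_distrib]
    refine (abs_sum_le_sum_abs _ _).trans ((sum_le_sum fun g hg =>
      main_g hk (Nat.dvd_of_mem_divisors hg) hN).trans ?_)
    rw [sum_const, nsmul_eq_mul]
  have h4 : Real.log ‖D k k k (N : ℂ)‖ / (k : ℝ) ^ 3 - (1 - hh k) * Real.log N =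
      (Real.log ‖D k k k (N : ℂ)‖ - (k : ℝ) ^ 3 * ((1 - hh k) * Real.log N)) / (k : ℝ) ^ 3 := by
    field_simp
  rw [h4, abs_div, abs_of_pos (pow_pos hkR 3), div_le_iff₀ (pow_pos hkR 3)]
  refine h3.trans (le_of_eq ?_)
  field_simp

theorem log_div_anti {x y : ℝ} (hy : 1 ≤ y) (hxy : y ≤ x) :
    (Real.log x + 2) / x ≤ (Real.log y + 2) / y := by
  have hy0 : 0 < y := by linarith
  have hx0 : 0 < x := by linarith
  rw [div_le_div_iff₀ hx0 hy0]
  have h1 : Real.log x ≤ Real.log y + (x / y - 1) := by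
    have h2 := Real.log_le_sub_one_of_pos (div_pos hx0 hy0)
    rw [Real.log_div hx0.ne' hy0.ne'] at h2
    linarith
  have h2 : (Real.log x + 2) * y ≤ (Real.log y + (x / y - 1) + 2) * y :=
    mul_le_mul_of_nonneg_right (by linarith) hy0.le
  have h3 : (Real.log y + (x / y - 1) + 2) * y = Real.log y * y + x + y := by
    field_simp
    ring
  have h4 : 0 ≤ Real.log y := Real.log_nonneg hy
  nlinarith [mul_nonneg (sub_nonneg.2 hxy) h4]

/-- The limit. -/
theorem tendsto_log_D {P : ℝ} {k : ℕ → ℕ} (hodd : ∀ i, Odd (k i)) (h3 : ∀ i, 3 ^ i ≤ k i)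
    (hcard : ∀ i, (k i).divisors.card = 2 ^ i) (hlim : Tendsto (fun i => hh (k i)) atTop (𝓝 P))
    {N : ℕ} (hN : 2 ≤ N) :
    Tendsto (fun i => Real.log ‖D (k i) (k i) (k i) (N : ℂ)‖ / ((k i : ℕ) : ℝ) ^ 3) atTop
      (𝓝 ((1 - P) * Real.log N)) := by
  have hC := two_log_ge hN
  have h1 : Tendsto (fun i => (1 - hh (k i)) * Real.log N) atTop (𝓝 ((1 - P) * Real.log N)) :=
    (tendsto_const_nhds.sub hlim).mul_const _
  have herr : Tendsto (fun i : ℕ => 2 * Real.log (2 * N + 1) * ((2 * (i : ℝ) + 2) * (2 / 3) ^ i))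
      atTop (𝓝 0) := by
    have h2 : Tendsto (fun i : ℕ => (i : ℝ) * (2 / 3 : ℝ) ^ i) atTop (𝓝 0) :=
      tendsto_self_mul_const_pow_of_lt_one (by norm_num) (by norm_num)
    have h4 : Tendsto (fun i : ℕ => (2 / 3 : ℝ) ^ i) atTop (𝓝 0) :=
      tendsto_pow_atTop_nhds_zero_of_lt_one (by norm_num) (by norm_num)
    have h5 := ((h2.const_mul 2).add (h4.const_mul 2)).const_mul (2 * Real.log (2 * N + 1))
    simp only [mul_zero, add_zero] at h5
    refine h5.congr fun i => ?_
    ring
  have hdiff : Tendsto (fun i => Real.log ‖D (k i) (k i) (k i) (N : ℂ)‖ / ((k i : ℕ) : ℝ) ^ 3 -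
      (1 - hh (k i)) * Real.log N) atTop (𝓝 0) := by
    refine squeeze_zero_norm (fun i => ?_) herr
    rw [Real.norm_eq_abs]
    refine (log_D (hodd i) hN).trans (mul_le_mul_of_nonneg_left ?_ (by linarith))
    rw [hcard i]
    have h3i : (3 : ℝ) ^ i ≤ (k i : ℝ) := by exact_mod_cast h3 i
    have h31 : (1 : ℝ) ≤ 3 ^ i := one_le_pow₀ (by norm_num)
    have h6 := log_div_anti h31 h3i
    have h7 : (Real.log ((3 : ℝ) ^ i) + 2) / 3 ^ i ≤ (2 * i + 2) / 3 ^ i := by
      refine div_le_div_of_nonneg_right ?_ (by positivity)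
      rw [Real.log_pow]
      have h8 : Real.log 3 ≤ 2 := by
        have := Real.log_le_sub_one_of_pos (show (0 : ℝ) < 3 by norm_num)
        linarith
      have h9 : (0 : ℝ) ≤ i := Nat.cast_nonneg i
      nlinarith
    calc ((2 ^ i : ℕ) : ℝ) * ((Real.log (k i) + 2) / (k i))
        ≤ (2 : ℝ) ^ i * ((2 * i + 2) / 3 ^ i) := by
          push_cast
          exact mul_le_mul_of_nonneg_left (h6.trans h7) (by positivity)
      _ = (2 * (i : ℝ) + 2) * (2 / 3) ^ i := by
          rw [div_pow]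
          ring
  have h10 := hdiff.add h1
  rw [zero_add] at h10
  refine h10.congr fun i => ?_
  ring

end Pool.Agent.Y226.FK
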